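import Pool.Agent.TF.Stmts

/-! Squad TF, row CUB (helper62): the cube lemma. -/

set_option autoImplicit false

namespace Pool.Agent.TF.H62

open Pool.Agent.TF

variable {Ω : Type} [Fintype Ω]

lemma hle (L : Lib) (P : Law Ω) {S T : Type} (X : Ω → S) (Y : Ω → T) (h : P.Det X Y) :
    P.H Y ≤ P.H X := L.mon.1 Ω S T P X Y h

/-- `H(X) ≤ H(A) + H(B|g)` if `(A,B)` determines `X` and `A` determines `g`. -/
lemma add (L : Lib) (P : Law Ω) {S T U W : Type} (X : Ω → S) (A : Ω → T) (B : Ω → U) (g : Ω → W)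
    (h1 : P.Det (fun ω => (A ω, B ω)) X) (h2 : P.Det A g) : P.H X ≤ P.H A + P.C B g := by
  have a1 : P.H X ≤ P.H (fun ω => (A ω, B ω)) := hle L P _ _ h1
  have a2 : P.C B (fun ω => (A ω, g ω)) ≤ P.C B g := L.sub Ω U T W P B A g
  have a3 : P.H (fun ω => (A ω, B ω)) ≤ P.H (fun ω => (B ω, (A ω, g ω))) := by
    apply hle L P
    intro ω ω' _ _ h
    simp only [Prod.mk.injEq] at h ⊢
    exact ⟨h.2.1, h.1⟩
  have a4 : P.H (fun ω => (A ω, g ω)) ≤ P.H A := by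
    apply hle L P
    intro ω ω' p p' h
    simp only [Prod.mk.injEq]
    exact ⟨h, h2 ω ω' p p' h⟩
  unfold Law.C at a2 ⊢
  linarith

lemma same_ae (P : Law Ω) {S : Type} (X Y : Ω → S) (h : ∀ ω, P.p ω ≠ 0 → X ω = Y ω) :
    SameLaw P X P Y := by
  intro s
  unfold Law.q
  apply Finset.sum_congr rfl
  intro ω _
  by_cases hp : P.p ω = 0
  · simp [hp]
  · rw [h ω hp]

lemma same_trans {Ω' Ω'' S : Type} [Fintype Ω'] [Fintype Ω''] {P : Law Ω} {P' : Law Ω'} {P'' : Law Ω''}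
    {X : Ω → S} {X' : Ω' → S} {X'' : Ω'' → S} (h : SameLaw P X P' X') (h' : SameLaw P' X' P'' X'') :
    SameLaw P X P'' X'' := fun s => (h s).trans (h' s)

/-- doubling -/
lemma dbl (L : Lib) {S T Cc : Type} (P : Law Ω) (V : Ω → S) (c : Ω → Cc) (lb : S → Cc → T) :
    ∃ P' : Law (Ω × Ω),
      SameLaw P' (fun ω => (V ω.1, c ω.1)) P (fun ω => (V ω, c ω)) ∧
      SameLaw P' (fun ω => (V ω.2, c ω.1)) P (fun ω => (V ω, c ω)) ∧
      (∀ ω, P'.p ω ≠ 0 → P.p ω.1 ≠ 0 ∧ P.p ω.2 ≠ 0 ∧ c ω.1 = c ω.2 ∧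
        lb (V ω.1) (c ω.1) = lb (V ω.2) (c ω.2)) ∧
      2 * P.C V c - P.C (fun ω => lb (V ω) (c ω)) c ≤ P'.C (fun ω => (V ω.1, V ω.2)) (fun ω => c ω.1) := by
  obtain ⟨P', s1, s2, sup, -, ind⟩ := L.gl2 Ω Ω (T × Cc) P P (fun ω => (lb (V ω) (c ω), c ω))
    (fun ω => (lb (V ω) (c ω), c ω)) (fun _ => rfl)
  have sp : ∀ ω, P'.p ω ≠ 0 → P.p ω.1 ≠ 0 ∧ P.p ω.2 ≠ 0 ∧ c ω.1 = c ω.2 ∧
      lb (V ω.1) (c ω.1) = lb (V ω.2) (c ω.2) := by
    intro ω hω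
    obtain ⟨h1, h2, h3⟩ := sup ω hω
    simp only [Prod.mk.injEq] at h3
    exact ⟨h1, h2, h3.2, h3.1⟩
  refine ⟨P', ?_, ?_, sp, ?_⟩
  · exact L.sam.1 _ _ _ _ P' P (fun ω => ω.1) (fun ω => ω) (fun ω => (V ω, c ω)) s1
  · refine same_trans (P' := P') (X' := fun ω => (V ω.2, c ω.2)) ?_ ?_
    · apply same_ae
      intro ω hω
      rw [(sp ω hω).2.2.1]
    · exact L.sam.1 _ _ _ _ P' P (fun ω => ω.2) (fun ω => ω) (fun ω => (V ω, c ω)) s2
  · have e := ind S S V V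
    have hX : P'.H (fun ω => (lb (V ω.1) (c ω.1), c ω.1)) = P.H (fun ω => (lb (V ω) (c ω), c ω)) :=
      L.sam.2.1 _ _ _ P' P _ _
        (L.sam.1 _ _ _ _ P' P (fun ω => ω.1) (fun ω => ω) (fun ω => (lb (V ω) (c ω), c ω)) s1)
    have hc : P'.H (fun ω => c ω.1) = P.H c :=
      L.sam.2.1 _ _ _ P' P _ _ (L.sam.1 _ _ _ _ P' P (fun ω => ω.1) (fun ω => ω) c s1)
    have m1 : P.H (fun ω => (V ω, c ω)) ≤ P.H (fun ω => (V ω, (lb (V ω) (c ω), c ω))) := by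
      apply hle L P
      intro ω ω' _ _ h
      simp only [Prod.mk.injEq] at h ⊢
      exact ⟨h.1, h.2.2⟩
    have m2 : P'.H (fun ω => ((V ω.1, V ω.2), (lb (V ω.1) (c ω.1), c ω.1)))
        ≤ P'.H (fun ω => ((V ω.1, V ω.2), c ω.1)) := by
      apply hle L P'
      intro ω ω' _ _ h
      simp only [Prod.mk.injEq] at h ⊢
      obtain ⟨⟨h1, h2⟩, h3⟩ := h
      refine ⟨⟨h1, h2⟩, ?_, h3⟩
      rw [h1, h3]
    unfold Law.C at e ⊢
    linarith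

/-- the doubled family of points -/
def dv {Ω S I : Type} (v : Ω → I → S) : Ω × Ω → I × Bool → S :=
  fun ω ib => if ib.2 then v ω.2 ib.1 else v ω.1 ib.1

lemma stage (L : Lib) {S T Cc I : Type} {Ω0 : Type} [Fintype Ω0] (P0 : Law Ω0) (x0 : Ω0 → S)
    (c0 : Ω0 → Cc) (P : Law Ω) (v : Ω → I → S) (c : Ω → Cc) (lb : S → Cc → T)
    (hm : ∀ i, SameLaw P (fun ω => (v ω i, c ω)) P0 (fun ω => (x0 ω, c0 ω))) :
    ∃ P' : Law (Ω × Ω),
      (∀ i, SameLaw P' (fun ω => (dv v ω i, c ω.1)) P0 (fun ω => (x0 ω, c0 ω))) ∧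
      (∀ ω, P'.p ω ≠ 0 → P.p ω.1 ≠ 0 ∧ P.p ω.2 ≠ 0 ∧ c ω.1 = c ω.2 ∧
        ∀ i, lb (v ω.1 i) (c ω.1) = lb (v ω.2 i) (c ω.1)) ∧
      2 * P.C v c - P.C (fun ω i => lb (v ω i) (c ω)) c ≤ P'.C (dv v) (fun ω => c ω.1) := by
  obtain ⟨P', a, b, s, e⟩ := dbl L P v c (fun v c i => lb (v i) c)
  refine ⟨P', ?_, ?_, ?_⟩
  · rintro ⟨i, q⟩
    cases q
    · refine same_trans ?_ (hm i)
      exact L.sam.1 _ _ _ _ P' P (fun ω => (v ω.1, c ω.1)) (fun ω => (v ω, c ω))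
        (fun vc => (vc.1 i, vc.2)) a
    · refine same_trans ?_ (hm i)
      exact L.sam.1 _ _ _ _ P' P (fun ω => (v ω.2, c ω.1)) (fun ω => (v ω, c ω))
        (fun vc => (vc.1 i, vc.2)) b
  · intro ω hω
    obtain ⟨h1, h2, h3, h4⟩ := s ω hω
    refine ⟨h1, h2, h3, fun i => ?_⟩
    have := congrFun h4 i
    rw [this, h3]
  · refine e.trans ?_
    unfold Law.C
    have : P'.H (fun ω => ((v ω.1, v ω.2), c ω.1)) ≤ P'.H (fun ω => (dv v ω, c ω.1)) := by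
      apply hle L P'
      intro ω ω' _ _ h
      simp only [Prod.mk.injEq] at h ⊢
      obtain ⟨h1, h2⟩ := h
      refine ⟨⟨?_, ?_⟩, h2⟩
      · funext i
        have := congrFun h1 (i, false)
        simpa [dv] using this
      · funext i
        have := congrFun h1 (i, true)
        simpa [dv] using this
    linarith

lemma trC (L : Lib) {Ω' Cc G S U : Type} [Fintype Ω'] (P' : Law Ω') (P : Law Ω) (y : Ω' → G)
    (c' : Ω' → Cc) (x : Ω → G) (c : Ω → Cc)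
    (h : SameLaw P' (fun ω => (y ω, c' ω)) P (fun ω => (x ω, c ω))) (f : G → Cc → S) (g : G → Cc → U) :
    P'.C (fun ω => f (y ω) (c' ω)) (fun ω => g (y ω) (c' ω))
      = P.C (fun ω => f (x ω) (c ω)) (fun ω => g (x ω) (c ω)) :=
  L.sam.2.2.1 Ω' Ω (G × Cc) S U P' P (fun ω => (y ω, c' ω)) (fun ω => (x ω, c ω))
    (fun z => f z.1 z.2) (fun z => g z.1 z.2) h

section U
variable {G : Type} [AddCommGroup G] [Fintype G] [DecidableEq G] {n : ℕ} {F : Fam G n} {l f : ℝ}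
  {Cc : Type} {P : Law Ω} {x : Ω → G} {c : Ω → Cc} {kf jf : Cc → Fin n}

lemma u2 (L : Lib) (hT : Tprof F l f P x c kf jf) {Ω1 S : Type} [Fintype Ω1] (Q : Law Ω1)
    (v0 v1 : Ω1 → G) (c' : Ω1 → Cc) (X : Ω1 → S)
    (m0 : SameLaw Q (fun ω => (v0 ω, c' ω)) P (fun ω => (x ω, c ω)))
    (m1 : SameLaw Q (fun ω => (v1 ω, c' ω)) P (fun ω => (x ω, c ω)))
    (h1 : ∀ ω, Q.p ω ≠ 0 → F.b (kf (c' ω)) (v1 ω) = F.b (kf (c' ω)) (v0 ω))
    (hX : Q.Det (fun ω => (((F.b (kf (c' ω)) (v0 ω), c' ω), F.a (jf (c' ω)) (v0 ω)),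
      F.a (jf (c' ω)) (v1 ω))) X) :
    Q.H X ≤ Q.H c' + (2 * P.C x c - l + 3 * f) := by
  have a1 := trC L Q P v0 c' x c m0 (fun x c => F.b (kf c) x) (fun _ c => c)
  have a2 := trC L Q P v0 c' x c m0 (fun x c => F.a (jf c) x) (fun x c => (F.b (kf c) x, c))
  have a3 := trC L Q P v1 c' x c m1 (fun x c => F.a (jf c) x) (fun x c => (F.b (kf c) x, c))
  have b2 := add L Q (fun ω => ((F.b (kf (c' ω)) (v0 ω), c' ω), F.a (jf (c' ω)) (v0 ω)))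
    (fun ω => (F.b (kf (c' ω)) (v0 ω), c' ω)) (fun ω => F.a (jf (c' ω)) (v0 ω))
    (fun ω => (F.b (kf (c' ω)) (v0 ω), c' ω)) (fun _ _ _ _ h => h) (fun _ _ _ _ h => h)
  have b3 := add L Q (fun ω => (((F.b (kf (c' ω)) (v0 ω), c' ω), F.a (jf (c' ω)) (v0 ω)),
      F.a (jf (c' ω)) (v1 ω)))
    (fun ω => ((F.b (kf (c' ω)) (v0 ω), c' ω), F.a (jf (c' ω)) (v0 ω)))
    (fun ω => F.a (jf (c' ω)) (v1 ω))
    (fun ω => (F.b (kf (c' ω)) (v1 ω), c' ω)) (fun _ _ _ _ h => h) (by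
      intro ω ω' p p' h
      simp only [Prod.mk.injEq] at h ⊢
      rw [h1 ω p, h1 ω' p']
      exact h.1)
  have b4 := hle L Q _ _ hX
  have t2 := hT.t2
  have t2' := hT.t2'
  simp only [Law.C] at a1 a2 a3 b2 b3 t2 t2' ⊢
  linarith

lemma u3 (L : Lib) (hT : Tprof F l f P x c kf jf) {Ω1 S : Type} [Fintype Ω1] (Q : Law Ω1)
    (v0 v1 v2 : Ω1 → G) (c' : Ω1 → Cc) (X : Ω1 → S)
    (m0 : SameLaw Q (fun ω => (v0 ω, c' ω)) P (fun ω => (x ω, c ω)))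
    (m1 : SameLaw Q (fun ω => (v1 ω, c' ω)) P (fun ω => (x ω, c ω)))
    (m2 : SameLaw Q (fun ω => (v2 ω, c' ω)) P (fun ω => (x ω, c ω)))
    (h1 : ∀ ω, Q.p ω ≠ 0 → F.b (jf (c' ω)) (v1 ω) = F.b (jf (c' ω)) (v0 ω))
    (h2 : ∀ ω, Q.p ω ≠ 0 → F.w true (kf (c' ω)) (jf (c' ω)) (v2 ω)
      = F.w true (kf (c' ω)) (jf (c' ω)) (v0 ω))
    (hX : Q.Det (fun ω => ((((F.a (kf (c' ω)) (v0 ω), F.b (jf (c' ω)) (v0 ω)), c' ω),
      F.a (kf (c' ω)) (v1 ω)), (F.a (kf (c' ω)) (v2 ω), F.b (jf (c' ω)) (v2 ω)))) X) :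
    Q.H X ≤ Q.H c' + (2 * P.C x c - 3 * l / 4 + 3 * f) := by
  have a1 := trC L Q P v0 c' x c m0 (fun x c => (F.a (kf c) x, F.b (jf c) x)) (fun _ c => c)
  have a2 := trC L Q P v1 c' x c m1 (fun x c => F.a (kf c) x) (fun x c => (F.b (jf c) x, c))
  have a3 := trC L Q P v2 c' x c m2 (fun x c => (F.a (kf c) x, F.b (jf c) x))
    (fun x c => (F.w true (kf c) (jf c) x, c))
  have b2 := add L Q (fun ω => (((F.a (kf (c' ω)) (v0 ω), F.b (jf (c' ω)) (v0 ω)), c' ω),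
      F.a (kf (c' ω)) (v1 ω)))
    (fun ω => ((F.a (kf (c' ω)) (v0 ω), F.b (jf (c' ω)) (v0 ω)), c' ω))
    (fun ω => F.a (kf (c' ω)) (v1 ω))
    (fun ω => (F.b (jf (c' ω)) (v1 ω), c' ω)) (fun _ _ _ _ h => h) (by
      intro ω ω' p p' h
      simp only [Prod.mk.injEq] at h ⊢
      rw [h1 ω p, h1 ω' p']
      exact ⟨h.1.2, h.2⟩)
  have b3 := add L Q (fun ω => ((((F.a (kf (c' ω)) (v0 ω), F.b (jf (c' ω)) (v0 ω)), c' ω),
      F.a (kf (c' ω)) (v1 ω)), (F.a (kf (c' ω)) (v2 ω), F.b (jf (c' ω)) (v2 ω))))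
    (fun ω => (((F.a (kf (c' ω)) (v0 ω), F.b (jf (c' ω)) (v0 ω)), c' ω), F.a (kf (c' ω)) (v1 ω)))
    (fun ω => (F.a (kf (c' ω)) (v2 ω), F.b (jf (c' ω)) (v2 ω)))
    (fun ω => (F.w true (kf (c' ω)) (jf (c' ω)) (v2 ω), c' ω)) (fun _ _ _ _ h => h) (by
      intro ω ω' p p' h
      simp only [Prod.mk.injEq] at h ⊢
      rw [h2 ω p, h2 ω' p']
      obtain ⟨⟨⟨h3, h4⟩, h5⟩, h6⟩ := h
      refine ⟨?_, h5⟩
      simp only [Fam.w, if_true]
      rw [h5] at *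
      rw [h3, h4])
  have b4 := hle L Q _ _ hX
  have t3 := hT.t3
  have t3' := hT.t3'
  have t3'' := hT.t3''
  simp only [Law.C] at a1 a2 a3 b2 b3 t3 t3' t3'' ⊢
  linarith

lemma u4 (L : Lib) (hT : Tprof F l f P x c kf jf) {Ω1 S : Type} [Fintype Ω1] (Q : Law Ω1)
    (v0 v1 v2 v3 : Ω1 → G) (c' : Ω1 → Cc) (X : Ω1 → S)
    (m0 : SameLaw Q (fun ω => (v0 ω, c' ω)) P (fun ω => (x ω, c ω)))
    (m1 : SameLaw Q (fun ω => (v1 ω, c' ω)) P (fun ω => (x ω, c ω)))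
    (m2 : SameLaw Q (fun ω => (v2 ω, c' ω)) P (fun ω => (x ω, c ω)))
    (m3 : SameLaw Q (fun ω => (v3 ω, c' ω)) P (fun ω => (x ω, c ω)))
    (h1 : ∀ ω, Q.p ω ≠ 0 → F.w false (kf (c' ω)) (jf (c' ω)) (v1 ω)
      = F.w false (kf (c' ω)) (jf (c' ω)) (v0 ω))
    (h2 : ∀ ω, Q.p ω ≠ 0 → F.a (jf (c' ω)) (v2 ω) = F.a (jf (c' ω)) (v0 ω))
    (h3 : ∀ ω, Q.p ω ≠ 0 → F.a (kf (c' ω)) (v3 ω) = F.a (kf (c' ω)) (v0 ω))
    (hX : Q.Det (fun ω => (((((F.a (kf (c' ω)) (v0 ω), F.a (jf (c' ω)) (v0 ω)), c' ω),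
      (F.a (kf (c' ω)) (v1 ω), F.a (jf (c' ω)) (v1 ω))), F.a (kf (c' ω)) (v2 ω)),
      F.a (jf (c' ω)) (v3 ω))) X) :
    Q.H X ≤ Q.H c' + (2 * P.C x c - l / 2 + 4 * f) := by
  have a1 := trC L Q P v0 c' x c m0 (fun x c => (F.a (kf c) x, F.a (jf c) x)) (fun _ c => c)
  have a2 := trC L Q P v1 c' x c m1 (fun x c => (F.a (kf c) x, F.a (jf c) x))
    (fun x c => (F.w false (kf c) (jf c) x, c))
  have a3 := trC L Q P v2 c' x c m2 (fun x c => F.a (kf c) x) (fun x c => (F.a (jf c) x, c))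
  have a4 := trC L Q P v3 c' x c m3 (fun x c => F.a (jf c) x) (fun x c => (F.a (kf c) x, c))
  have b2 := add L Q (fun ω => (((F.a (kf (c' ω)) (v0 ω), F.a (jf (c' ω)) (v0 ω)), c' ω),
      (F.a (kf (c' ω)) (v1 ω), F.a (jf (c' ω)) (v1 ω))))
    (fun ω => ((F.a (kf (c' ω)) (v0 ω), F.a (jf (c' ω)) (v0 ω)), c' ω))
    (fun ω => (F.a (kf (c' ω)) (v1 ω), F.a (jf (c' ω)) (v1 ω)))
    (fun ω => (F.w false (kf (c' ω)) (jf (c' ω)) (v1 ω), c' ω)) (fun _ _ _ _ h => h) (by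
      intro ω ω' p p' h
      simp only [Prod.mk.injEq] at h ⊢
      rw [h1 ω p, h1 ω' p']
      obtain ⟨⟨h3, h4⟩, h5⟩ := h
      refine ⟨?_, h5⟩
      simp only [Fam.w, Bool.false_eq_true, if_false]
      rw [h3, h4])
  have b3 := add L Q (fun ω => ((((F.a (kf (c' ω)) (v0 ω), F.a (jf (c' ω)) (v0 ω)), c' ω),
      (F.a (kf (c' ω)) (v1 ω), F.a (jf (c' ω)) (v1 ω))), F.a (kf (c' ω)) (v2 ω)))
    (fun ω => (((F.a (kf (c' ω)) (v0 ω), F.a (jf (c' ω)) (v0 ω)), c' ω),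
      (F.a (kf (c' ω)) (v1 ω), F.a (jf (c' ω)) (v1 ω))))
    (fun ω => F.a (kf (c' ω)) (v2 ω))
    (fun ω => (F.a (jf (c' ω)) (v2 ω), c' ω)) (fun _ _ _ _ h => h) (by
      intro ω ω' p p' h
      simp only [Prod.mk.injEq] at h ⊢
      rw [h2 ω p, h2 ω' p']
      exact ⟨h.1.1.2, h.1.2⟩)
  have b4 := add L Q (fun ω => (((((F.a (kf (c' ω)) (v0 ω), F.a (jf (c' ω)) (v0 ω)), c' ω),
      (F.a (kf (c' ω)) (v1 ω), F.a (jf (c' ω)) (v1 ω))), F.a (kf (c' ω)) (v2 ω)),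
      F.a (jf (c' ω)) (v3 ω)))
    (fun ω => ((((F.a (kf (c' ω)) (v0 ω), F.a (jf (c' ω)) (v0 ω)), c' ω),
      (F.a (kf (c' ω)) (v1 ω), F.a (jf (c' ω)) (v1 ω))), F.a (kf (c' ω)) (v2 ω)))
    (fun ω => F.a (jf (c' ω)) (v3 ω))
    (fun ω => (F.a (kf (c' ω)) (v3 ω), c' ω)) (fun _ _ _ _ h => h) (by
      intro ω ω' p p' h
      simp only [Prod.mk.injEq] at h ⊢
      rw [h3 ω p, h3 ω' p']
      exact ⟨h.1.1.1.1, h.1.1.2⟩)
  have b5 := hle L Q _ _ hX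
  have t4 := hT.t4
  have t4' := hT.t4'
  have t4'' := hT.t4''
  have t4''' := hT.t4'''
  simp only [Law.C] at a1 a2 a3 a4 b2 b3 b4 t4 t4' t4'' t4''' ⊢
  linarith

end U

theorem cub (L : Lib) (hC : CalStmt) : CubStmt := by
  intro G _ _ _ n F l f Ω Cc _ P x c kf jf hT
  -- step 1
  obtain ⟨P1, m1, s1, e1⟩ := stage (Ω := Ω) L P x c P (fun ω (_ : Unit) => x ω) c
    (fun x c => (F.b (kf c) x, F.b (jf c) x)) (fun _ => fun _ => rfl)
  obtain ⟨v1, hv1⟩ : ∃ v : Ω × Ω → Unit × Bool → G, v = dv (fun ω (_ : Unit) => x ω) := ⟨_, rfl⟩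
  obtain ⟨c1, hc1⟩ : ∃ c' : Ω × Ω → Cc, c' = fun ω => c ω.1 := ⟨_, rfl⟩
  rw [← hv1, ← hc1] at e1
  have m1' : ∀ i, SameLaw P1 (fun ω => (v1 ω i, c1 ω)) P (fun ω => (x ω, c ω)) := by
    rw [hv1, hc1]; exact m1
  have s1' : ∀ ω, P1.p ω ≠ 0 → (∀ p, v1 ω ((), p) ∈ F.D (kf (c1 ω)) ∩ F.D (jf (c1 ω))) ∧
      F.b (kf (c1 ω)) (v1 ω ((), true)) = F.b (kf (c1 ω)) (v1 ω ((), false)) ∧
      F.b (jf (c1 ω)) (v1 ω ((), true)) = F.b (jf (c1 ω)) (v1 ω ((), false)) := by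
    intro ω hω
    obtain ⟨h1, h2, h3, h4⟩ := s1 ω hω
    have h4' := h4 ()
    simp only [Prod.mk.injEq] at h4'
    rw [hv1, hc1]
    refine ⟨?_, ?_, ?_⟩
    · intro p
      rw [Finset.mem_inter]
      cases p
      · exact hT.supp _ h1
      · have := hT.supp _ h2
        rw [← h3] at this
        exact this
    · exact h4'.1.symm
    · exact h4'.2.symm
  have E1 : 2 * P.C x c - (3 * l / 4 + f) ≤ P1.C v1 c1 := by
    refine le_trans ?_ e1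
    have := hT.t1
    have h1 : P.C x c ≤ P.C (fun ω (_ : Unit) => x ω) c := by
      unfold Law.C
      have : P.H (fun ω => (x ω, c ω)) ≤ P.H (fun ω => ((fun (_ : Unit) => x ω), c ω)) := by
        apply hle L P
        intro ω ω' _ _ h
        simp only [Prod.mk.injEq] at h ⊢
        exact ⟨congrFun h.1 (), h.2⟩
      linarith
    have h2 : P.C (fun ω (_ : Unit) => (F.b (kf (c ω)) (x ω), F.b (jf (c ω)) (x ω))) c
        ≤ P.C (fun ω => (F.b (kf (c ω)) (x ω), F.b (jf (c ω)) (x ω))) c := by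
      unfold Law.C
      have : P.H (fun ω => ((fun (_ : Unit) => (F.b (kf (c ω)) (x ω), F.b (jf (c ω)) (x ω))), c ω))
          ≤ P.H (fun ω => ((F.b (kf (c ω)) (x ω), F.b (jf (c ω)) (x ω)), c ω)) := by
        apply hle L P
        intro ω ω' _ _ h
        simp only [Prod.mk.injEq] at h ⊢
        refine ⟨?_, h.2⟩
        funext _
        rw [Prod.mk.injEq]
        exact h.1
      linarith
    linarith
  -- step 2
  have U2 : P1.C (fun ω i => (F.b (kf (c1 ω)) (v1 ω i), F.a (jf (c1 ω)) (v1 ω i))) c1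
      ≤ 2 * P.C x c - l + 3 * f := by
    have := u2 L hT P1 (fun ω => v1 ω ((), false)) (fun ω => v1 ω ((), true)) c1
      (fun ω => ((fun i => (F.b (kf (c1 ω)) (v1 ω i), F.a (jf (c1 ω)) (v1 ω i))), c1 ω))
      (m1' _) (m1' _) (fun ω h => (s1' ω h).2.1) (by
        intro ω ω' p p' h
        simp only [Prod.mk.injEq] at h ⊢
        obtain ⟨⟨⟨g1, g2⟩, g3⟩, g4⟩ := h
        refine ⟨?_, g2⟩
        funext i
        obtain ⟨⟨⟩, q⟩ := i
        cases q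
        · rw [Prod.mk.injEq]
          exact ⟨g1, g3⟩
        · rw [Prod.mk.injEq]
          refine ⟨?_, g4⟩
          rw [(s1' ω p).2.1, (s1' ω' p').2.1]
          exact g1)
    unfold Law.C at this ⊢
    linarith
  obtain ⟨P2, m2, s2, e2⟩ := stage (Ω := Ω × Ω) L P x c P1 v1 c1
    (fun x c => (F.b (kf c) x, F.a (jf c) x)) m1'
  obtain ⟨v2, hv2⟩ : ∃ v : (Ω × Ω) × (Ω × Ω) → (Unit × Bool) × Bool → G, v = dv v1 := ⟨_, rfl⟩
  obtain ⟨c2, hc2⟩ : ∃ c' : (Ω × Ω) × (Ω × Ω) → Cc, c' = fun ω => c1 ω.1 := ⟨_, rfl⟩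
  rw [← hv2, ← hc2] at e2
  have m2' : ∀ i, SameLaw P2 (fun ω => (v2 ω i, c2 ω)) P (fun ω => (x ω, c ω)) := by
    rw [hv2, hc2]; exact m2
  have E2 : 2 * P.C x c - l / 2 - 5 * f ≤ P2.C v2 c2 := by
    refine le_trans ?_ e2
    linarith
  have s2' : ∀ ω, P2.p ω ≠ 0 →
      (∀ p q, v2 ω (((), p), q) ∈ F.D (kf (c2 ω)) ∩ F.D (jf (c2 ω))) ∧
      (∀ q, F.b (kf (c2 ω)) (v2 ω (((), true), q)) = F.b (kf (c2 ω)) (v2 ω (((), false), q)) ∧
        F.b (jf (c2 ω)) (v2 ω (((), true), q)) = F.b (jf (c2 ω)) (v2 ω (((), false), q))) ∧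
      (∀ p, F.b (kf (c2 ω)) (v2 ω (((), p), true)) = F.b (kf (c2 ω)) (v2 ω (((), p), false)) ∧
        F.a (jf (c2 ω)) (v2 ω (((), p), true)) = F.a (jf (c2 ω)) (v2 ω (((), p), false))) := by
    intro ω hω
    obtain ⟨h1, h2, h3, h4⟩ := s2 ω hω
    have f1 := s1' _ h1
    have f2 := s1' _ h2
    rw [← h3] at f2
    rw [hv2, hc2]
    refine ⟨?_, ?_, ?_⟩
    · intro p q
      cases q
      · exact f1.1 p
      · exact f2.1 p
    · intro q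
      cases q
      · exact f1.2
      · exact f2.2
    · intro p
      have h4' := h4 ((), p)
      simp only [Prod.mk.injEq] at h4'
      exact ⟨h4'.1.symm, h4'.2.symm⟩
  clear e1 s1 m1 e2 s2 m2 U2 E1 s1' m1' hv1 hc1 hv2 hc2
  -- step 3
  have U3 : P2.C (fun ω i => (F.a (kf (c2 ω)) (v2 ω i), F.b (jf (c2 ω)) (v2 ω i))) c2
      ≤ 2 * P.C x c - 3 * l / 4 + 3 * f := by
    have CA : ∀ ω, P2.p ω ≠ 0 → _ := fun ω hω =>
      (hC G n F (kf (c2 ω)) (jf (c2 ω))).1 (fun p q => v2 ω (((), p), q)) (s2' ω hω).1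
        (s2' ω hω).2.1 (s2' ω hω).2.2
    have := u3 L hT P2 (fun ω => v2 ω (((), false), false)) (fun ω => v2 ω (((), true), false))
      (fun ω => v2 ω (((), false), true)) c2
      (fun ω => ((fun i => (F.a (kf (c2 ω)) (v2 ω i), F.b (jf (c2 ω)) (v2 ω i))), c2 ω))
      (m2' _) (m2' _) (m2' _) (fun ω h => ((s2' ω h).2.1 false).2) (fun ω h => (CA ω h).2.2) (by
        intro ω ω' p p' h
        simp only [Prod.mk.injEq] at h ⊢
        obtain ⟨⟨⟨⟨g1, g2⟩, g3⟩, g4⟩, g5, g6⟩ := h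
        refine ⟨?_, g3⟩
        have c1 := CA ω p
        have c2 := CA ω' p'
        have d1 := ((s2' ω p).2.1 false).2
        have d2 := ((s2' ω' p').2.1 false).2
        funext i
        obtain ⟨⟨⟨⟩, p⟩, q⟩ := i
        cases p <;> cases q
        · rw [Prod.mk.injEq]
          exact ⟨g1, g2⟩
        · rw [Prod.mk.injEq]
          exact ⟨g5, g6⟩
        · rw [Prod.mk.injEq]
          exact ⟨g4, by rw [d1, d2]; exact g2⟩
        · rw [Prod.mk.injEq]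
          refine ⟨?_, ?_⟩
          · rw [c1.2.1, c2.2.1, g1, g4, g5]
          · rw [c1.1, c2.1, g6])
    unfold Law.C at this ⊢
    linarith
  obtain ⟨P3, m3, s3, e3⟩ := stage (Ω := (Ω × Ω) × (Ω × Ω)) L P x c P2 v2 c2
    (fun x c => (F.a (kf c) x, F.b (jf c) x)) m2'
  obtain ⟨v3, hv3⟩ : ∃ v : ((Ω × Ω) × (Ω × Ω)) × ((Ω × Ω) × (Ω × Ω)) →
    ((Unit × Bool) × Bool) × Bool → G, v = dv v2 := ⟨_, rfl⟩
  obtain ⟨c3, hc3⟩ : ∃ c' : ((Ω × Ω) × (Ω × Ω)) × ((Ω × Ω) × (Ω × Ω)) → Cc,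
    c' = fun ω => c2 ω.1 := ⟨_, rfl⟩
  rw [← hv3, ← hc3] at e3
  have m3' : ∀ i, SameLaw P3 (fun ω => (v3 ω i, c3 ω)) P (fun ω => (x ω, c ω)) := by
    rw [hv3, hc3]; exact m3
  have E3 : 2 * P.C x c - l / 4 - 13 * f ≤ P3.C v3 c3 := by
    refine le_trans ?_ e3
    linarith
  have s3' : ∀ ω, P3.p ω ≠ 0 →
      (∀ p q r, v3 ω ((((), p), q), r) ∈ F.D (kf (c3 ω)) ∩ F.D (jf (c3 ω))) ∧
      (∀ q r, F.b (kf (c3 ω)) (v3 ω ((((), true), q), r))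
          = F.b (kf (c3 ω)) (v3 ω ((((), false), q), r)) ∧
        F.b (jf (c3 ω)) (v3 ω ((((), true), q), r))
          = F.b (jf (c3 ω)) (v3 ω ((((), false), q), r))) ∧
      (∀ p r, F.b (kf (c3 ω)) (v3 ω ((((), p), true), r))
          = F.b (kf (c3 ω)) (v3 ω ((((), p), false), r)) ∧
        F.a (jf (c3 ω)) (v3 ω ((((), p), true), r))
          = F.a (jf (c3 ω)) (v3 ω ((((), p), false), r))) ∧
      (∀ p q, F.a (kf (c3 ω)) (v3 ω ((((), p), q), true))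
          = F.a (kf (c3 ω)) (v3 ω ((((), p), q), false)) ∧
        F.b (jf (c3 ω)) (v3 ω ((((), p), q), true))
          = F.b (jf (c3 ω)) (v3 ω ((((), p), q), false))) := by
    intro ω hω
    obtain ⟨h1, h2, h3, h4⟩ := s3 ω hω
    have f1 := s2' _ h1
    have f2 := s2' _ h2
    rw [← h3] at f2
    rw [hv3, hc3]
    refine ⟨?_, ?_, ?_, ?_⟩
    · intro p q r
      cases r
      · exact f1.1 p q
      · exact f2.1 p q
    · intro q r
      cases r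
      · exact f1.2.1 q
      · exact f2.2.1 q
    · intro p r
      cases r
      · exact f1.2.2 p
      · exact f2.2.2 p
    · intro p q
      have h4' := h4 (((), p), q)
      simp only [Prod.mk.injEq] at h4'
      exact ⟨h4'.1.symm, h4'.2.symm⟩
  clear e3 s3 m3 U3 E2 s2' m2' hv3 hc3
  -- step 4
  have U4 : P3.C (fun ω i => (F.a (kf (c3 ω)) (v3 ω i), F.a (jf (c3 ω)) (v3 ω i))) c3
      ≤ 2 * P.C x c - l / 2 + 4 * f := by
    have CA : ∀ ω, P3.p ω ≠ 0 → _ := fun ω hω =>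
      (hC G n F (kf (c3 ω)) (jf (c3 ω))).2.1 (fun p q r => v3 ω ((((), p), q), r)) (s3' ω hω).1
        (s3' ω hω).2.1 (s3' ω hω).2.2.1 (s3' ω hω).2.2.2
    have := u4 L hT P3 (fun ω => v3 ω ((((), false), false), false))
      (fun ω => v3 ω ((((), true), false), false))
      (fun ω => v3 ω ((((), false), true), false))
      (fun ω => v3 ω ((((), false), false), true)) c3
      (fun ω => ((fun i => (F.a (kf (c3 ω)) (v3 ω i), F.a (jf (c3 ω)) (v3 ω i))), c3 ω))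
      (m3' _) (m3' _) (m3' _) (m3' _) (fun ω h => (CA ω h).2)
      (fun ω h => ((s3' ω h).2.2.1 false false).2) (fun ω h => ((s3' ω h).2.2.2 false false).1) (by
        intro ω ω' p p' h
        simp only [Prod.mk.injEq] at h ⊢
        obtain ⟨⟨⟨⟨⟨g1, g2⟩, g3⟩, g4, g5⟩, g6⟩, g7⟩ := h
        refine ⟨?_, g3⟩
        have c1 := (CA ω p).1
        have c2 := (CA ω' p').1
        funext i
        obtain ⟨⟨⟨⟨⟩, p⟩, q⟩, r⟩ := i
        rw [Prod.mk.injEq]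
        refine ⟨?_, ?_⟩
        · rw [(c1 p q r).1, (c2 p q r).1, g1, g4, g6]
        · rw [(c1 p q r).2, (c2 p q r).2, g1, g2, g4, g7])
    unfold Law.C at this ⊢
    linarith
  obtain ⟨P4, m4, s4, e4⟩ := stage (Ω := ((Ω × Ω) × (Ω × Ω)) × ((Ω × Ω) × (Ω × Ω))) L P x c P3 v3 c3
    (fun x c => (F.a (kf c) x, F.a (jf c) x)) m3'
  obtain ⟨v4, hv4⟩ : ∃ v : (((Ω × Ω) × (Ω × Ω)) × ((Ω × Ω) × (Ω × Ω))) ×
    (((Ω × Ω) × (Ω × Ω)) × ((Ω × Ω) × (Ω × Ω))) →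
    (((Unit × Bool) × Bool) × Bool) × Bool → G, v = dv v3 := ⟨_, rfl⟩
  obtain ⟨c4, hc4⟩ : ∃ c' : (((Ω × Ω) × (Ω × Ω)) × ((Ω × Ω) × (Ω × Ω))) ×
    (((Ω × Ω) × (Ω × Ω)) × ((Ω × Ω) × (Ω × Ω))) → Cc,
    c' = fun ω => c3 ω.1 := ⟨_, rfl⟩
  rw [← hv4, ← hc4] at e4
  have m4' : ∀ i, SameLaw P4 (fun ω => (v4 ω i, c4 ω)) P (fun ω => (x ω, c ω)) := by
    rw [hv4, hc4]; exact m4
  have E4 : 2 * P.C x c - 30 * f ≤ P4.C v4 c4 := by
    refine le_trans ?_ e4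
    linarith
  have s4' : ∀ ω, P4.p ω ≠ 0 →
      (∀ p q r s, v4 ω (((((), p), q), r), s) ∈ F.D (kf (c4 ω)) ∩ F.D (jf (c4 ω))) ∧
      (∀ q r s, F.b (kf (c4 ω)) (v4 ω (((((), true), q), r), s))
          = F.b (kf (c4 ω)) (v4 ω (((((), false), q), r), s)) ∧
        F.b (jf (c4 ω)) (v4 ω (((((), true), q), r), s))
          = F.b (jf (c4 ω)) (v4 ω (((((), false), q), r), s))) ∧
      (∀ p r s, F.b (kf (c4 ω)) (v4 ω (((((), p), true), r), s))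
          = F.b (kf (c4 ω)) (v4 ω (((((), p), false), r), s)) ∧
        F.a (jf (c4 ω)) (v4 ω (((((), p), true), r), s))
          = F.a (jf (c4 ω)) (v4 ω (((((), p), false), r), s))) ∧
      (∀ p q s, F.a (kf (c4 ω)) (v4 ω (((((), p), q), true), s))
          = F.a (kf (c4 ω)) (v4 ω (((((), p), q), false), s)) ∧
        F.b (jf (c4 ω)) (v4 ω (((((), p), q), true), s))
          = F.b (jf (c4 ω)) (v4 ω (((((), p), q), false), s))) ∧
      (∀ p q r, F.a (kf (c4 ω)) (v4 ω (((((), p), q), r), true))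
          = F.a (kf (c4 ω)) (v4 ω (((((), p), q), r), false)) ∧
        F.a (jf (c4 ω)) (v4 ω (((((), p), q), r), true))
          = F.a (jf (c4 ω)) (v4 ω (((((), p), q), r), false))) := by
    intro ω hω
    obtain ⟨h1, h2, h3, h4⟩ := s4 ω hω
    have f1 := s3' _ h1
    have f2 := s3' _ h2
    rw [← h3] at f2
    rw [hv4, hc4]
    refine ⟨?_, ?_, ?_, ?_, ?_⟩
    · intro p q r s
      cases s
      · exact f1.1 p q r
      · exact f2.1 p q r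
    · intro q r s
      cases s
      · exact f1.2.1 q r
      · exact f2.2.1 q r
    · intro p r s
      cases s
      · exact f1.2.2.1 p r
      · exact f2.2.2.1 p r
    · intro p q s
      cases s
      · exact f1.2.2.2 p q
      · exact f2.2.2.2 p q
    · intro p q r
      have h4' := h4 ((((), p), q), r)
      simp only [Prod.mk.injEq] at h4'
      exact ⟨h4'.1.symm, h4'.2.symm⟩
  clear e4 s4 m4 U4 E3 s3' m3' hv4 hc4
  refine ⟨_, inferInstance, P4, fun ω => v4 ω (((((), false), false), false), false),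
    fun ω => v4 ω (((((), true), true), true), true), c4, m4' _, m4' _, ?_, ?_⟩
  · intro ω hω
    obtain ⟨h0, h1, h2, h3, h4⟩ := s4' ω hω
    exact (hC G n F (kf (c4 ω)) (jf (c4 ω))).2.2.1
      (fun p q r s => v4 ω (((((), p), q), r), s)) h0 h1 h2 h3 h4
  · refine E4.trans ?_
    have : P4.H (fun ω => (v4 ω, c4 ω)) ≤ P4.H (fun ω =>
        ((v4 ω (((((), false), false), false), false), v4 ω (((((), true), true), true), true)),
          c4 ω)) := by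
      apply hle L P4
      intro ω ω' hω hω' h
      simp only [Prod.mk.injEq] at h ⊢
      obtain ⟨⟨g1, g2⟩, g3⟩ := h
      refine ⟨?_, g3⟩
      obtain ⟨h0, h1, h2, h3, h4⟩ := s4' ω hω
      obtain ⟨h0', h1', h2', h3', h4'⟩ := s4' ω' hω'
      rw [← g3] at h0' h1' h2' h3' h4'
      have := (hC G n F (kf (c4 ω)) (jf (c4 ω))).2.2.2
        (fun p q r s => v4 ω (((((), p), q), r), s)) (fun p q r s => v4 ω' (((((), p), q), r), s))
        h0 h0' h1 h2 h3 h4 h1' h2' h3' h4' g1 g2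
      funext i
      obtain ⟨⟨⟨⟨⟨⟩, p⟩, q⟩, r⟩, s⟩ := i
      exact congrFun (congrFun (congrFun (congrFun this p) q) r) s
    unfold Law.C
    linarith

end Pool.Agent.TF.H62
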